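import Pool.Agent.H620R2.GaugeR.R1
import Pool.Agent.H620R2.GaugeR.Seq
import Pool.Agent.H620R2.Gauge2.Trans
import Pool.Agent.H620R2.Gauge.P
import Pool.Agent.H591R3.PHG.LangSig

/-!
# Counting classes
-/

set_option autoImplicit false

namespace Pool.Agent.H9x.RP

open Finset Pool.Agent.NPC Pool.Agent.H622R2 Pool.Agent.H620R2.Gauge

open Classical in
/-- The number of the bit strings of length `m` with the property `P`. -/
noncomputable def cnt (m : ℕ) (P : List Bool → Prop) : ℕ :=
  (Finset.univ.filter fun w : Fin m → Bool => P (List.ofFn w)).card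

/-- The language `L` is in `PP` relative to `A`: `x` is in `L` if and only if more than half of the
strings `w` of length `p |x|` are accepted, together with `x`, by a polynomial-time algorithm. -/
def IsPP (A : Oracle) (L : Set (List Bool)) : Prop :=
  ∃ (V : List Bool → List Bool) (p : Polynomial ℕ), IsFP A V ∧
    ∀ x, x ∈ L ↔ 2 ^ p.eval x.length < 2 * cnt (p.eval x.length) fun w => V (pairBits w x) = [true]

/-- The language `L` is in `⊕P` relative to `A`: `x` is in `L` if and only if an odd number of the
strings `w` of length `p |x|` are accepted, together with `x`, by a polynomial-time algorithm. -/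
def IsParP (A : Oracle) (L : Set (List Bool)) : Prop :=
  ∃ (V : List Bool → List Bool) (p : Polynomial ℕ), IsFP A V ∧
    ∀ x, x ∈ L ↔ Odd (cnt (p.eval x.length) fun w => V (pairBits w x) = [true])

theorem cnt_congr {m : ℕ} {P Q : List Bool → Prop} (h : ∀ w, w.length = m → (P w ↔ Q w)) :
    cnt m P = cnt m Q := by
  classical
  unfold cnt
  congr 1
  ext w
  simp only [mem_filter, mem_univ, true_and]
  exact h _ (by simp)

theorem cnt_zero (P : List Bool → Prop) [Decidable (P [])] :
    cnt 0 P = if P [] then 1 else 0 := by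
  classical
  unfold cnt
  split_ifs with h
  · rw [card_eq_one]
    refine ⟨fun i => i.elim0, ?_⟩
    ext w
    simp only [mem_filter, mem_univ, true_and, mem_singleton, List.ofFn_zero]
    exact ⟨fun _ => Subsingleton.elim _ _, fun _ => h⟩
  · rw [card_eq_zero, filter_eq_empty_iff]
    intro w _
    simpa using h

theorem cnt_succ (m : ℕ) (P : List Bool → Prop) :
    cnt (m + 1) P = cnt m (fun w => P (false :: w)) + cnt m (fun w => P (true :: w)) := by
  classical
  unfold cnt
  have h1 : ∀ b : Bool, (univ.filter fun w : Fin m → Bool => P (b :: List.ofFn w)).card =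
      (univ.filter fun w : Fin (m + 1) → Bool => P (List.ofFn w) ∧ w 0 = b).card := by
    intro b
    refine card_bij (fun w _ => (Fin.cons b w : Fin (m + 1) → Bool)) ?_ ?_ ?_
    · intro w hw
      rw [mem_filter] at hw ⊢
      refine ⟨mem_univ _, ?_, rfl⟩
      rw [List.ofFn_succ]
      simpa using hw.2
    · intro w _ w' _ h
      exact Fin.cons_right_injective (n := m) (α := fun _ => Bool) b h
    · intro w hw
      rw [mem_filter] at hw
      refine ⟨fun i => w i.succ, ?_, ?_⟩
      · rw [mem_filter]
        refine ⟨mem_univ _, ?_⟩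
        rw [← hw.2.2, ← List.ofFn_succ]
        exact hw.2.1
      · rw [← hw.2.2]
        exact Fin.cons_self_tail w
  rw [h1, h1, ← card_union_of_disjoint]
  · congr 1
    ext w
    simp only [mem_filter, mem_univ, true_and, mem_union]
    cases h : w 0 <;> simp
  · rw [disjoint_left]
    intro w h2 h3
    rw [mem_filter] at h2 h3
    rw [h2.2.2] at h3
    exact Bool.noConfusion h3.2.2

theorem cnt_const (m : ℕ) (P : Prop) [Decidable P] :
    cnt m (fun _ => P) = if P then 2 ^ m else 0 := by
  induction m with
  | zero => rw [cnt_zero]; simp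
  | succ m ih =>
    rw [cnt_succ, ih]
    split_ifs
    · rw [pow_succ]; omega
    · rfl

theorem cnt_le (m : ℕ) (P : List Bool → Prop) : cnt m P ≤ 2 ^ m := by
  classical
  unfold cnt
  refine (card_filter_le _ _).trans ?_
  simp

theorem cnt_take (r : ℕ) : ∀ (a : ℕ) (P : List Bool → Prop),
    cnt (a + r) (fun w => P (w.take a)) = 2 ^ r * cnt a P
  | 0, P => by
    classical
    have h1 : (fun w : List Bool => P (w.take 0)) = fun _ => P [] := by
      funext w
      rw [List.take_zero]
    rw [h1, cnt_const, cnt_zero, Nat.zero_add]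
    split_ifs <;> simp
  | a + 1, P => by
    have h1 := cnt_take r a (fun w => P (false :: w))
    have h2 := cnt_take r a (fun w => P (true :: w))
    rw [show a + 1 + r = (a + r) + 1 by ring, cnt_succ, cnt_succ]
    simp only [List.take_succ_cons]
    rw [h1, h2, mul_add]

theorem sum_two_mul (f : ℕ → ℕ) (n : ℕ) :
    ∑ j ∈ range (2 * n), f j = ∑ i ∈ range n, (f (2 * i) + f (2 * i + 1)) := by
  induction n with
  | zero => simp
  | succ n ih =>
    rw [show 2 * (n + 1) = 2 * n + 1 + 1 by ring, sum_range_succ, sum_range_succ, ih,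
      sum_range_succ]
    ring

open Classical in
theorem cnt_bits : ∀ (m : ℕ) (P : List Bool → Prop),
    cnt m P = ((range (2 ^ m)).filter fun j => P (bitsOf m j)).card
  | 0, P => by
    rw [cnt_zero]
    by_cases h : P []
    · rw [if_pos h, filter_true_of_mem (fun j _ => by simpa [bitsOf] using h)]
      simp
    · rw [if_neg h, filter_false_of_mem (fun j _ => by simpa [bitsOf] using h)]
      simp
  | m + 1, P => by
    rw [cnt_succ, cnt_bits m, cnt_bits m, card_filter, card_filter, card_filter, pow_succ,
      mul_comm (2 ^ m) 2, sum_two_mul, ← sum_add_distrib]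
    refine sum_congr rfl fun i _ => ?_
    have h1 : bitsOf (m + 1) (2 * i) = false :: bitsOf m i := by
      rw [bitsOf]
      have h2 : (2 * i) % 2 = 0 := by omega
      have h3 : (2 * i) / 2 = i := by omega
      rw [h2, h3]
      rfl
    have h2 : bitsOf (m + 1) (2 * i + 1) = true :: bitsOf m i := by
      rw [bitsOf]
      have h2 : (2 * i + 1) % 2 = 1 := by omega
      have h3 : (2 * i + 1) / 2 = i := by omega
      rw [h2, h3]
      rfl
    rw [h1, h2]

theorem valB_bitsOf : ∀ (m j : ℕ), j < 2 ^ m → valB (bitsOf m j) = j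
  | 0, j, h => by
    have : j = 0 := by simpa using h
    rw [this]
    rfl
  | m + 1, j, h => by
    rw [bitsOf, valB_cons, valB_bitsOf m (j / 2) (by rw [pow_succ] at h; omega)]
    rcases Nat.mod_two_eq_zero_or_one j with h1 | h1 <;> rw [h1] <;> simp <;> omega

theorem cnt_val (m T : ℕ) : cnt m (fun w => T ≤ valB w) = 2 ^ m - T := by
  classical
  rw [cnt_bits, ← Nat.card_Ico]
  refine congrArg Finset.card (Finset.ext fun j => ?_)
  simp only [Finset.mem_filter, mem_range, mem_Ico]
  constructor
  · rintro ⟨h2, h3⟩
    rw [valB_bitsOf m j h2] at h3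
    exact ⟨h3, h2⟩
  · rintro ⟨h2, h3⟩
    rw [valB_bitsOf m j h3]
    exact ⟨h3, h2⟩

theorem IsP.isPP {A : Oracle} {L : Set (List Bool)} (h : IsP A L) : IsPP A L := by
  classical
  obtain ⟨V, hV, hL⟩ := h
  refine ⟨fun z => V (unpair z).2, 0, hV.precomp (Poly.snd poly_unpair), fun x => ?_⟩
  rw [hL x, Polynomial.eval_zero, cnt_zero]
  simp only [unpair_pairBits]
  split_ifs with h <;> simp [h]

/-- the verifier for the threshold language -/
def tV (V : List Bool → List Bool) (p : Polynomial ℕ) (t : ℕ) (z : List Bool) : List Bool :=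
  if (unpair z).1.head? = some false then
    V (pairBits ((unpair z).1.tail.take (p.eval (unpair (unpair z).2).2.length))
      (unpair (unpair z).2).2)
  else if valB (unpair (unpair z).2).1 + t ≤
    valB ((unpair z).1.tail.take (p.eval (unpair (unpair z).2).2.length)) then [true] else []

theorem isFP_tV {A : Oracle} {V : List Bool → List Bool} (hV : IsFP A V) (p : Polynomial ℕ)
    (t : ℕ) : IsFP A (tV V p t) := by
  have hw : Poly (fun z : List Bool => (unpair z).1) := Poly.fst poly_unpair
  have hy : Poly (fun z : List Bool => (unpair z).2) := Poly.snd poly_unpair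
  have hv : Poly (fun z : List Bool => (unpair (unpair z).2).1) := Poly.fst (poly_unpair.comp hy)
  have hx : Poly (fun z : List Bool => (unpair (unpair z).2).2) := Poly.snd (poly_unpair.comp hy)
  have hm : UPoly (fun z : List Bool => p.eval (unpair (unpair z).2).2.length) :=
    (UPoly.length hx).eval p
  have ht : Poly (fun z : List Bool =>
      (unpair z).1.tail.take (p.eval (unpair (unpair z).2).2.length)) :=
    R1.poly_take (Poly.tail hw) hm
  have h1 := IsFP.comp hV (IsFP.of_poly (H622R2.poly_pairBits ht hx) (A := A))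
  refine IsFP.seq (φ := fun t => t.1)
    (ψ := fun s => if (unpair s.1).1.head? = some false then s.2.1
      else if valB (unpair (unpair s.1).2).1 + t ≤
        valB ((unpair s.1).1.tail.take (p.eval (unpair (unpair s.1).2).2.length)) then [true]
        else []) h1 h1 (Poly.fst Poly.id) ?_
  have h0 : Poly (fun s : List Bool × List Bool × List Bool => s.1) := Poly.fst Poly.id
  refine Poly.ite (Poly.decide_eq (Poly.head? (hw.comp h0)) (NPC.Poly.const _))
    (Poly.fst (Poly.snd Poly.id)) ?_
  exact Poly.ite (Poly.decide_le (Poly.add (Poly.valBits (hv.comp h0)) (NPC.Poly.const t))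
    (Poly.valBits (ht.comp h0))) (NPC.Poly.const _) (NPC.Poly.const _)

/-- the threshold language -/
def TL (V : List Bool → List Bool) (p : Polynomial ℕ) (t : ℕ) : Set (List Bool) :=
  {y | valB (unpair y).1 + t < cnt (p.eval (unpair y).2.length) fun w =>
    V (pairBits w (unpair y).2) = [true]}

theorem isPP_TL {A : Oracle} {V : List Bool → List Bool} (hV : IsFP A V) (p : Polynomial ℕ)
    (t : ℕ) : IsPP A (TL V p t) := by
  refine ⟨tV V p t, p + 1, isFP_tV hV p t, fun y => ?_⟩
  set x := (unpair y).2 with hx
  set v := (unpair y).1 with hv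
  set m := p.eval x.length with hm
  have h1 : m ≤ p.eval y.length := eval_mono p (by
    have := Pool.Agent.H591R3.PHG.LangSig.length_unpair y
    rw [hx]
    omega)
  obtain ⟨r, hr⟩ := Nat.exists_eq_add_of_le h1
  have h2 : (p + 1 : Polynomial ℕ).eval y.length = (m + r) + 1 := by
    rw [Polynomial.eval_add, Polynomial.eval_one, hr]
  have h3 : cnt ((m + r) + 1) (fun w => tV V p t (pairBits w y) = [true]) =
      2 ^ r * (cnt m (fun w => V (pairBits w x) = [true]) + (2 ^ m - (valB v + t))) := by
    rw [cnt_succ, mul_add, ← cnt_take, ← cnt_val m, ← cnt_take]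
    congr 1
    · refine cnt_congr fun w _ => ?_
      unfold tV
      rw [unpair_pairBits]
      simp only [List.head?_cons, if_true, List.tail_cons]
      exact Iff.rfl
    · refine cnt_congr fun w _ => ?_
      unfold tV
      rw [unpair_pairBits]
      simp only [List.head?_cons, Option.some.injEq, Bool.true_eq_false, if_false,
        List.tail_cons]
      rw [← hx, ← hv, ← hm]
      split_ifs with h <;> simp [h]
  rw [h2, h3]
  have h4 := cnt_le m (fun w => V (pairBits w x) = [true])
  have h7 : y ∈ TL V p t ↔ valB v + t < cnt m (fun w => V (pairBits w x) = [true]) := Iff.rfl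
  rw [h7]
  set c := cnt m (fun w => V (pairBits w x) = [true]) with hc
  have h5 : 2 ^ (m + r + 1) = 2 ^ r * (2 * 2 ^ m) := by ring
  have h6 : 2 * (2 ^ r * (c + (2 ^ m - (valB v + t)))) =
      2 ^ r * (2 * (c + (2 ^ m - (valB v + t)))) := by ring
  rw [h5, h6, Nat.mul_lt_mul_left (Nat.two_pow_pos r)]
  omega

/-- **If `NP` and `PP` are contained in `P`, so is `⊕P`.** -/
theorem parP_of {A : Oracle} (hNP : ∀ L, IsNP A L → IsP A L) (hPP : ∀ L, IsPP A L → IsP A L)
    {L : Set (List Bool)} (hL : IsParP A L) : IsP A L := by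
  obtain ⟨V, p, hV, hx⟩ := hL
  obtain ⟨V₀, hV₀, h₀⟩ := hPP _ (isPP_TL hV p 0)
  obtain ⟨V₁, hV₁, h₁⟩ := hPP _ (isPP_TL hV p 1)
  refine hNP _ ⟨fun z => if valB (unpair z).1 % 2 = 0 then
    (if V₀ z = [true] then (if V₁ z = [true] then [] else [true]) else []) else [], p, ?_,
    fun x => ?_⟩
  · refine IsFP.seq (φ := fun t => t.1) (ψ := fun s => if valB (unpair s.1).1 % 2 = 0 then
      (if s.2.1 = [true] then (if s.2.2 = [true] then [] else [true]) else []) else [])
      hV₀ hV₁ (Poly.fst Poly.id) ?_
    have hw : Poly (fun z : List Bool => (unpair z).1) := Poly.fst poly_unpair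
    have h0 : Poly (fun s : List Bool × List Bool × List Bool => s.1) := Poly.fst Poly.id
    refine Poly.ite (Poly.decide_eq (Poly.mod (Poly.valBits (hw.comp h0)) (NPC.Poly.const 2))
      (NPC.Poly.const 0)) ?_ (NPC.Poly.const _)
    refine Poly.ite (Poly.decide_eq (Poly.fst (Poly.snd Poly.id)) (NPC.Poly.const _)) ?_
      (NPC.Poly.const _)
    exact Poly.ite (Poly.decide_eq (Poly.snd (Poly.snd Poly.id)) (NPC.Poly.const _))
      (NPC.Poly.const _) (NPC.Poly.const _)
  · rw [hx x]
    set m := p.eval x.length with hm
    set c := cnt m (fun w => V (pairBits w x) = [true]) with hc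
    have hT : ∀ (t : ℕ) (v : List Bool), pairBits v x ∈ TL V p t ↔ valB v + t < c := by
      intro t v
      unfold TL
      rw [Set.mem_ofPred_eq, unpair_pairBits]
    have key : ∀ v : List Bool, ((if valB (unpair (pairBits v x)).1 % 2 = 0 then
        (if V₀ (pairBits v x) = [true] then (if V₁ (pairBits v x) = [true] then [] else [true])
          else []) else []) = [true]) ↔ valB v % 2 = 0 ∧ valB v < c ∧ ¬ valB v + 1 < c := by
      intro v
      have e0 := (h₀ (pairBits v x)).symm.trans (hT 0 v)
      have e1 := (h₁ (pairBits v x)).symm.trans (hT 1 v)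
      rw [add_zero] at e0
      rw [unpair_pairBits, ← e0, ← e1]
      by_cases a1 : valB v % 2 = 0
      · by_cases a2 : V₀ (pairBits v x) = [true]
        · by_cases a3 : V₁ (pairBits v x) = [true]
          · simp [a1, a2, a3]
          · simp [a1, a2, a3]
        · simp [a1, a2]
      · simp [a1]
    constructor
    · intro hodd
      have hle : c ≤ 2 ^ m := cnt_le _ _
      have hc1 : 1 ≤ c := hodd.pos
      refine ⟨bitsOf m (c - 1), by rw [length_bitsOf], ?_⟩
      refine (key _).2 ?_
      rw [valB_bitsOf m (c - 1) (by omega)]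
      obtain ⟨j, hj⟩ := hodd
      omega
    · rintro ⟨v, _, hv⟩
      obtain ⟨k1, k2, k3⟩ := (key v).1 hv
      have : c = valB v + 1 := by omega
      rw [this, Nat.odd_iff]
      omega

end Pool.Agent.H9x.RP
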