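import Pool.Agent.H9x.RP.Par
import Pool.Agent.H9x.RT.Fml

/-!
# Families of oracles with one free set of bits
-/

set_option autoImplicit false

namespace Pool.Agent.H9x.RP

open Pool.Agent.NPC Pool.Agent.H622R2 Pool.Agent.H620R2.Gauge Pool.Agent.H622R2.Exp
  Pool.Agent.TH678.ETH Pool.Agent.TH678.SETH Pool.Agent.TH678.RS Finset H568R2 Pool.Agent.H676

open Pool.Agent.H9x.V1 (Ac ac_congr poly_rep poly_cS)

open Pool.Agent.H9x.RT (ll lev Ix cI orc_loc orc_on orc_off Kq lt_blk Adm base lead
  lead_le frd)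

/-- the content given by a function on the cube -/
def en (m : ℕ) (z : (Fin m → Bool) → Bool) (w : List Bool) : Bool :=
  if h : w.length = m then z fun i => w.get (i.cast h.symm) else false

theorem en_ofFn (m : ℕ) (z : (Fin m → Bool) → Bool) (w : Fin m → Bool) :
    en m z (List.ofFn w) = z w := by
  unfold en
  rw [dif_pos (by simp)]
  congr 1
  funext i
  simp

theorem en_cls (m : ℕ) (w : List Bool) :
    (∃ i, ∀ z : (Fin m → Bool) → Bool, en m z w = z i) ∨
      ∀ z : (Fin m → Bool) → Bool, en m z w = false := by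
  by_cases h : w.length = m
  · left
    refine ⟨fun i => w.get (i.cast h.symm), fun z => ?_⟩
    unfold en
    rw [dif_pos h]
  · right
    intro z
    unfold en
    rw [dif_neg h]

variable {S N : ℕ → Polynomial ℕ} {b : ℕ → ℕ} {g : ℕ → SAlg × Polynomial ℕ}
  {h : ℕ → Alg × Polynomial ℕ} {I : Type*} [Fintype I] [DecidableEq I]

/-- a family of data in which one block at the level `s` or one free block is free, and no truth
value of a block at the higher levels matters -/
structure Fam (S : ℕ → Polynomial ℕ) (s T : ℕ) (F : (I → Bool) → RT.Dat) : Prop where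
  low : ∀ c, lev S c < s → ∀ z z', (F z).bl c = (F z').bl c
  lowf : ∀ s' < s, ∀ z z', (F z).fr s' = (F z').fr s'
  blk : ∀ c, s ≤ lev S c → lev S c ≤ T →
    ((∀ z z', (F z).bl c = (F z').bl c) ∧ (lev S c = s ∨ ∀ z, (F z).bl c true = (F z).bl c false))
      ∨ ∀ w, (∃ v, ∀ z t, (F z).bl c t w = v) ∨ ∃ i, ∀ z t, (F z).bl c t w = z i
  fr : ∀ s' w, (∃ v, ∀ z, (F z).fr s' w = v) ∨ ∃ i, ∀ z, (F z).fr s' w = z i

omit [Fintype I] [DecidableEq I] in
theorem Fam.adm (hc : Kq g h S N) {s T : ℕ} {F : (I → Bool) → RT.Dat} (hF : Fam S s T F)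
    (hT : ∀ s', s ≤ s' → T < s' ^ (b s' + 1)) :
    Adm s T (fun z => RT.orc S N b g h (F z)) := by
  have hlow : ∀ q : List Bool, q.length ≤ s → ∀ z z',
      RT.orc S N b g h (F z) q = RT.orc S N b g h (F z') q := fun q hq z z' =>
    orc_loc hc.big (fun c hc' => hF.low c hc' z z') (fun s' hs' => hF.lowf s' hs' z z') _ q rfl hq
  set z₀ : I → Bool := fun _ => false
  refine ⟨fun q hq => ⟨RT.orc S N b g h (F z₀) q, fun z => hlow q hq z z₀⟩, fun q hqT => ?_⟩
  by_cases hp : ∃ p : Ix S N b, q = cI p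
  · obtain ⟨p, rfl⟩ := hp
    cases p with
    | far p =>
      left
      refine ⟨RT.orc S N b g h (F z₀) (cI (Ix.far p : Ix S N b)), fun z => ?_⟩
      have hs : (S p.1.1).eval p.1.2.2.length < s := by
        by_contra hcon
        have h1 := hT _ (not_lt.1 hcon)
        obtain ⟨⟨e, i, y⟩, h2⟩ := p
        have h3 : (S e).eval y.length ^ (b ((S e).eval y.length) + 1) ≤ i := h2
        have h4 : (true :: true :: cS e i y).length ≤ T := hqT
        rw [List.length_cons, List.length_cons, length_cS] at h4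
        simp only at h1
        omega
      rw [Bool.eq_iff_iff, orc_on hc.big, orc_on hc.big]
      exact ac_congr fun q hq => hlow q (by omega) z z₀
    | blk e x w hw =>
      have hl := lt_blk (N := N) (b := b) e x w hw
      have hlT : lev S (e, x) ≤ T := by show (S e).eval x.length ≤ T; omega
      have key : lev S (e, x) ≤ s → ∀ z z', Ac g S e x (RT.orc S N b g h (F z)) ↔
          Ac g S e x (RT.orc S N b g h (F z')) := fun hls z z' =>
        ac_congr fun q hq => hlow q (by have : (S e).eval x.length ≤ s := hls; omega) z z'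
      have hval : ∀ z, RT.orc S N b g h (F z) (cI (Ix.blk e x w hw : Ix S N b)) =
          (F z).bl (e, x) (@decide (Ac g S e x (RT.orc S N b g h (F z)))
            (Classical.propDecidable _)) w := by
        intro z
        rw [Bool.eq_iff_iff, orc_on hc.big]
        rfl
      have key2 : lev S (e, x) ≤ s → (∀ z z', (F z).bl (e, x) = (F z').bl (e, x)) →
          ∃ c, ∀ z, RT.orc S N b g h (F z) (cI (Ix.blk e x w hw : Ix S N b)) = c := by
        intro hls hb
        refine ⟨RT.orc S N b g h (F z₀) (cI (Ix.blk e x w hw : Ix S N b)), fun z => ?_⟩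
        rw [hval, hval, hb z z₀]
        have h2 : @decide (Ac g S e x (RT.orc S N b g h (F z))) (Classical.propDecidable _) =
            @decide (Ac g S e x (RT.orc S N b g h (F z₀))) (Classical.propDecidable _) := by
          rw [decide_eq_decide]
          exact key hls z z₀
        rw [h2]
      by_cases hls : lev S (e, x) < s
      · exact Or.inl (key2 hls.le fun z z' => hF.low _ hls z z')
      · rcases hF.blk (e, x) (not_lt.1 hls) hlT with ⟨h1, h2⟩ | h1
        · left
          rcases h2 with h2 | h2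
          · exact key2 h2.le h1
          · refine ⟨(F z₀).bl (e, x) true w, fun z => ?_⟩
            rw [hval, h1 z z₀]
            cases @decide (Ac g S e x (RT.orc S N b g h (F z))) (Classical.propDecidable _)
            · rw [← h2 z₀]
            · rfl
        · rcases h1 w with ⟨v, hv⟩ | ⟨i, hi⟩
          · left
            exact ⟨v, fun z => by rw [hval, hv]⟩
          · right
            left
            exact ⟨i, fun z => by rw [hval, hi]⟩
    | np e i x hi =>
      right
      right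
      refine ⟨{y | ∃ w : List Bool, w.length ≤ (h e).2.eval x.length ∧ y = pairBits w x}, (h e).1,
        (N e).eval x.length, ?_, ?_, fun z => ?_⟩
      · have h1 : (true :: false :: true :: cS e i x).length =
            (cI (Ix.np e i x hi : Ix S N b)).length := rfl
        rw [← h1, List.length_cons, List.length_cons, List.length_cons, length_cS]
        omega
      · rintro y ⟨w, hw, rfl⟩
        exact hc.hbig e x w hw
      · rw [orc_on hc.big]
        constructor
        · rintro ⟨w, hw, hw'⟩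
          exact ⟨_, ⟨w, hw, rfl⟩, hw'⟩
        · rintro ⟨_, ⟨w, hw, rfl⟩, hw'⟩
          exact ⟨w, hw, hw'⟩
  · push Not at hp
    have hoff : ∀ z, RT.orc S N b g h (F z) q = base (F z) q := fun z => orc_off _ hp
    rcases q with _ | ⟨c₁, _ | ⟨c₂, u⟩⟩
    · exact Or.inl ⟨false, fun z => by rw [hoff]; rfl⟩
    · exact Or.inl ⟨false, fun z => by rw [hoff]; cases c₁ <;> rfl⟩
    · cases c₁
      · cases c₂
        · exact Or.inl ⟨base (F z₀) (false :: false :: u), fun z => by rw [hoff]; rfl⟩
        · have hfr : ∀ z, RT.orc S N b g h (F z) (false :: true :: u) =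
              (F z).fr (lead u) (u.drop (2 * lead u + 1)) := fun z => by rw [hoff]; rfl
          rcases hF.fr (lead u) (u.drop (2 * lead u + 1)) with ⟨v, hv⟩ | ⟨i, hi⟩
          · exact Or.inl ⟨v, fun z => by rw [hfr, hv]⟩
          · exact Or.inr (Or.inl ⟨i, fun z => by rw [hfr, hi]⟩)
      · exact Or.inl ⟨false, fun z => by rw [hoff]; cases c₂ <;> rfl⟩

/-- **Algorithms cannot see the parity of the free bits.** -/
theorem Fam.par_le (hc : Kq g h S N) {s T J k R : ℕ} {F : (I → Bool) → RT.Dat}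
    (hF : Fam S s T F) (hT : ∀ s', s ≤ s' → T < s' ^ (b s' + 1)) (hT1 : 1 ≤ T)
    (hJ : T ≤ s ^ 2 ^ J) (hk : J + T + R ≤ k) (hk1 : 1 ≤ k)
    (hcard : 2 * (k + R) * (24 * (T * k)) ^ (J + 1) ≤ Fintype.card I) {M : Alg} {x : List Bool}
    (hr : M.p.eval x.length ≤ T) (hcut : ∀ A : Oracle, M.out (CC.cut T A) x = M.out A x)
    {f : (I → Bool) → Bool}
    (hf : ∀ z, f z = true ↔ M.out (RT.orc S N b g h (F z)) x = some [true]) :
    |∑ a, Od a * br f a - ∑ a, Ev a * br f a| ≤ 4 * (1 / 2) ^ R := by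
  classical
  have hw1 : 1 ≤ T * k := Nat.succ_le_of_lt (Nat.mul_pos hT1 hk1)
  have hwR : (1 : ℝ) ≤ ((T * k : ℕ) : ℝ) := by exact_mod_cast hw1
  set q₀ : ℝ := 1 / (24 * ((T * k : ℕ) : ℝ)) with hq₀
  have h0 : 0 < q₀ := by positivity
  have h1 : q₀ ≤ 1 := by
    rw [hq₀, div_le_one (by positivity)]
    linarith
  have hfin := adm_fin (hF.adm hc hT) (k := k) (J := J) hk1 hT1 hJ
    (Y := {x}) (M := M) (by rintro y rfl; exact hr) (f := f) (by
      intro z
      rw [hf z, ← hcut]
      simp)
  have hβ : ((J : ℝ) + 1) * 2 ^ (T + 1) * (1 / 2) ^ (k + 1) ≤ (1 / 2) ^ R := by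
    have h2 : ((J : ℝ) + 1) ≤ 2 ^ J := by exact_mod_cast Nat.lt_two_pow_self (n := J)
    have h3 : (1 / 2 : ℝ) ^ (k + 1) ≤ (1 / 2) ^ (J + T + R + 1) :=
      pow_le_pow_of_le_one (by norm_num) (by norm_num) (by omega)
    calc ((J : ℝ) + 1) * 2 ^ (T + 1) * (1 / 2) ^ (k + 1) ≤
          2 ^ J * 2 ^ (T + 1) * (1 / 2) ^ (J + T + R + 1) := by gcongr
      _ = (2 * (1 / 2)) ^ (J + T + 1) * (1 / 2) ^ R := by
          rw [mul_pow]
          ring
      _ = (1 / 2) ^ R := by norm_num
  have hp0 : 0 < q₀ ^ (J + 1) := by positivity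
  have hp1 : q₀ ^ (J + 1) ≤ 1 := pow_le_one₀ h0.le h1
  have hfew := few_free' (I := I) hp0.le hp1 (t := k) (R := R) (by
    have h4 : ((2 * (k + R) * (24 * (T * k)) ^ (J + 1) : ℕ) : ℝ) ≤ Fintype.card I := by
      exact_mod_cast hcard
    push_cast at h4
    have h5 : (24 * ((T * k : ℕ) : ℝ)) ^ (J + 1) * q₀ ^ (J + 1) = 1 := by
      rw [← mul_pow, hq₀, mul_one_div_cancel (by positivity), one_pow]
    push_cast at h5
    calc 2 * ((k : ℝ) + R) = 2 * ((k : ℝ) + R) * ((24 * ((T : ℝ) * k)) ^ (J + 1) * q₀ ^ (J + 1)) := by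
          rw [h5, mul_one]
      _ = (2 * ((k : ℝ) + R) * (24 * ((T : ℝ) * k)) ^ (J + 1)) * q₀ ^ (J + 1) := by ring
      _ ≤ Fintype.card I * q₀ ^ (J + 1) := mul_le_mul_of_nonneg_right h4 hp0.le)
  have h6 := chi_le hp0.le hp1 f (hfin.trans hβ) hfew
  rw [Od_sub_Ev]
  linarith

end Pool.Agent.H9x.RP
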