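import Pool.Agent.H9x.RT.Nest

/-!
# Parity and functions that become decision trees
-/

set_option autoImplicit false
set_option linter.unusedSectionVars false

namespace Pool.Agent.H9x.RP

open Finset H568R2 Pool.Agent.H676 Pool.Agent.H620R2.Gauge Pool.Agent.NPC Pool.Agent.H622R2.Exp

open Pool.Agent.H9x.RT

variable {I : Type*} [Fintype I] [DecidableEq I]

/-- the sign of the parity -/
noncomputable def chi (z : I → Bool) : ℝ := ∏ i, sg (z i)

theorem dS_univ (F : (I → Bool) → ℝ) :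
    dS univ F 0 = (∑ a, chi a * F a) / 2 ^ Fintype.card I := by
  unfold dS chi
  rw [sum_div]
  refine sum_congr rfl fun a _ => ?_
  have h1 : ∏ i, (if i ∈ (univ : Finset I) then sg (a i) / 2 else
      (1 + sg (a i) * (0 : I → ℝ) i) / 2) = (∏ i, sg (a i)) / 2 ^ Fintype.card I := by
    rw [prod_congr rfl fun i _ => if_pos (mem_univ i), prod_div_distrib, prod_const, card_univ]
  rw [h1]
  ring

/-- the stars of a restriction -/
def free (ρ : Restr I) : Finset I := univ.filter fun i => ρ i = none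

/-- the sign of a restricted coordinate -/
noncomputable def so : Option Bool → ℝ
  | none => 1
  | some b => sg b

theorem abs_so (o : Option Bool) : |so o| = 1 := by
  cases o with
  | none => simp [so]
  | some b => exact abs_sg b

theorem dS_univ_restr (p : ℝ) (F : (I → Bool) → ℝ) :
    dS univ F 0 = ∑ ρ : Restr I, (∏ i, wq p (ρ i)) * ((∏ i, so (ρ i)) *
      dS (free ρ) (fun a => F (ov ρ a)) 0) := by
  have h1 : ∑ ρ : Restr I, (∏ i, wq p (ρ i)) * ((∏ i, so (ρ i)) *
      dS (free ρ) (fun a => F (ov ρ a)) 0) =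
      ∑ ω : I → Option Bool × Bool, F (fun i => (ω i).1.getD (ω i).2) *
        ∏ i, (wq p (ω i).1 * so (ω i).1 * (if (ω i).1 = none then sg (ω i).2 / 2 else 1 / 2)) := by
    unfold dS
    simp only [mul_sum]
    rw [← Finset.sum_product', Finset.univ_product_univ]
    symm
    refine Fintype.sum_equiv (Equiv.arrowProdEquivProdArrow I (fun _ => Option Bool) (fun _ => Bool))
      _ _ fun ω => ?_
    simp only [Equiv.arrowProdEquivProdArrow, Equiv.coe_fn_mk]
    rw [prod_mul_distrib, prod_mul_distrib]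
    simp only [Pi.zero_apply, mul_zero, add_zero, free, mem_filter, mem_univ, true_and]
    have h0 : ov (fun c => (ω c).1) (fun c => (ω c).2) = fun i => (ω i).1.getD (ω i).2 := rfl
    rw [h0]
    ring
  rw [h1]
  refine Eq.trans ?_ (push (fun i (x : Option Bool × Bool) => wq p x.1 * so x.1 *
    (if x.1 = none then sg x.2 / 2 else 1 / 2)) (fun x => x.1.getD x.2) F).symm
  unfold dS
  refine sum_congr rfl fun c _ => ?_
  congr 1
  refine prod_congr rfl fun i _ => ?_
  rw [if_pos (mem_univ i), sum_filter, Fintype.sum_prod_type]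
  simp only [Fintype.sum_option, Fintype.sum_bool]
  cases c i <;> simp [wq, so, sg] <;> ring

theorem dS_eq_zero {t : ℕ} {f : (I → Bool) → Bool} (h : DTr t f) {S : Finset I} (hS : t < S.card) :
    dS S (br f) 0 = 0 := by
  have h1 := lv_dtr t f S.card h
  rw [Nat.choose_eq_zero_of_lt hS, Nat.cast_zero] at h1
  have h2 : |dS S (br f) 0| ≤ lv S.card (br f) 0 := by
    unfold lv
    exact single_le_sum (f := fun S : Finset I => |dS S (br f) 0|) (fun _ _ => abs_nonneg _)
      (mem_powersetCard.2 ⟨subset_univ _, rfl⟩)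
  exact abs_eq_zero.1 (le_antisymm (h2.trans h1) (abs_nonneg _))

open Classical in
/-- **Parity is not correlated with functions that become decision trees.** -/
theorem chi_le {t : ℕ} {p : ℝ} (h0 : 0 ≤ p) (h1 : p ≤ 1) (f : (I → Bool) → Bool) {β γ : ℝ}
    (hβ : Ex (wq p) (fun ρ : Restr I => if ¬ DTr t (rs f ρ) then (1 : ℝ) else 0) ≤ β)
    (hγ : Ex (wq p) (fun ρ : Restr I => if (free ρ).card ≤ t then (1 : ℝ) else 0) ≤ γ) :
    |dS univ (br f) 0| ≤ β + γ := by
  rw [dS_univ_restr p]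
  refine (abs_sum_le_sum_abs _ _).trans ?_
  have hw : ∀ a, 0 ≤ wq p a := wq_nonneg h0 h1
  have h2 : ∀ ρ : Restr I, |(∏ i, wq p (ρ i)) * ((∏ i, so (ρ i)) *
      dS (free ρ) (fun a => br f (ov ρ a)) 0)| ≤ (∏ i, wq p (ρ i)) *
      ((if ¬ DTr t (rs f ρ) then (1 : ℝ) else 0) + (if (free ρ).card ≤ t then (1 : ℝ) else 0)) := by
    intro ρ
    rw [abs_mul, abs_mul, abs_prod, abs_prod]
    have h3 : ∏ i, |so (ρ i)| = 1 := prod_eq_one fun i _ => abs_so _
    have h4 : ∏ i, |wq p (ρ i)| = ∏ i, wq p (ρ i) :=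
      prod_congr rfl fun i _ => abs_of_nonneg (hw _)
    rw [h3, h4, one_mul]
    refine mul_le_mul_of_nonneg_left ?_ (prod_nonneg fun i _ => hw _)
    have h5 : |dS (free ρ) (fun a => br f (ov ρ a)) 0| ≤ 1 :=
      abs_dS_le (fun a => abs_br_le f _) (fun i => by simp) _
    by_cases hd : DTr t (rs f ρ)
    · by_cases hf : (free ρ).card ≤ t
      · rw [if_neg (not_not.2 hd), if_pos hf, zero_add]
        exact h5
      · rw [if_neg (not_not.2 hd), if_neg hf, add_zero]
        have h6 : dS (free ρ) (br (rs f ρ)) 0 = 0 := dS_eq_zero hd (not_le.1 hf)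
        have h7 : (fun a => br f (ov ρ a)) = br (rs f ρ) := rfl
        rw [h7, h6, abs_zero]
    · rw [if_pos hd]
      have h6 : (0 : ℝ) ≤ (if (free ρ).card ≤ t then (1 : ℝ) else 0) := by
        split_ifs <;> norm_num
      linarith
  refine (sum_le_sum fun ρ _ => h2 ρ).trans ?_
  have h3 := Ex_add (wq p) (fun ρ : Restr I => if ¬ DTr t (rs f ρ) then (1 : ℝ) else 0)
    (fun ρ : Restr I => if (free ρ).card ≤ t then (1 : ℝ) else 0)
  unfold Ex at h3 hβ hγ
  rw [h3]
  exact add_le_add hβ hγ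

open Classical in
theorem few_free {p : ℝ} (h0 : 0 ≤ p) (h1 : p ≤ 1) (t : ℕ) :
    Ex (wq p) (fun ρ : Restr I => if (free ρ).card ≤ t then (1 : ℝ) else 0) ≤
      2 ^ t * (1 - p / 2) ^ Fintype.card I := by
  have hw : ∀ a, 0 ≤ wq p a := wq_nonneg h0 h1
  have h2 : ∀ ρ : Restr I, (if (free ρ).card ≤ t then (1 : ℝ) else 0) ≤
      2 ^ t * ∏ i, (if ρ i = none then (1 / 2 : ℝ) else 1) := by
    intro ρ
    have h3 : ∏ i, (if ρ i = none then (1 / 2 : ℝ) else 1) = (1 / 2) ^ (free ρ).card := by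
      rw [prod_ite, prod_const, prod_const_one, mul_one]
      rfl
    rw [h3]
    split_ifs with h
    · have h4 : (1 / 2 : ℝ) ^ t ≤ (1 / 2) ^ (free ρ).card :=
        pow_le_pow_of_le_one (by norm_num) (by norm_num) h
      have h5 : (2 : ℝ) ^ t * (1 / 2) ^ t = 1 := by rw [← mul_pow]; norm_num
      calc (1 : ℝ) = 2 ^ t * (1 / 2) ^ t := h5.symm
        _ ≤ _ := mul_le_mul_of_nonneg_left h4 (by positivity)
    · positivity
  refine (Ex_mono hw h2).trans (le_of_eq ?_)
  rw [Ex_smul]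
  congr 1
  unfold Ex
  have h3 : ∀ ρ : Restr I, (∏ i, wq p (ρ i)) * ∏ i, (if ρ i = none then (1 / 2 : ℝ) else 1) =
      ∏ i, (wq p (ρ i) * (if ρ i = none then (1 / 2 : ℝ) else 1)) := fun ρ =>
    prod_mul_distrib.symm
  rw [sum_congr rfl fun ρ _ => h3 ρ,
    sum_prod (fun _ x => wq p x * (if x = none then (1 / 2 : ℝ) else 1)), prod_const, card_univ]
  congr 1
  rw [Fintype.sum_option, Fintype.sum_bool]
  simp only [if_true, reduceCtorEq, if_false]
  unfold wq
  ring

open Classical in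
theorem few_free' {p : ℝ} (h0 : 0 ≤ p) (h1 : p ≤ 1) {t R : ℕ}
    (h : 2 * ((t : ℝ) + R) ≤ Fintype.card I * p) :
    Ex (wq p) (fun ρ : Restr I => if (free ρ).card ≤ t then (1 : ℝ) else 0) ≤ (1 / 2) ^ R := by
  refine (few_free h0 h1 t).trans ?_
  have h2 : (1 - p / 2) ≤ Real.exp (-(p / 2)) := by
    have := Real.add_one_le_exp (-(p / 2))
    linarith
  have h3 : (1 - p / 2) ^ Fintype.card I ≤ Real.exp (-(p / 2)) ^ Fintype.card I :=
    pow_le_pow_left₀ (by linarith) h2 _
  have h4 : Real.exp (-(p / 2)) ^ Fintype.card I ≤ Real.exp (-((t : ℝ) + R)) := by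
    rw [← Real.exp_nat_mul]
    apply Real.exp_le_exp.2
    linarith
  have h5 : Real.exp (-((t : ℝ) + R)) ≤ (1 / 2) ^ (t + R) := by
    have h6 : Real.exp (-((t : ℝ) + R)) = Real.exp (-1) ^ (t + R) := by
      rw [← Real.exp_nat_mul]
      congr 1
      push_cast
      ring
    rw [h6]
    refine pow_le_pow_left₀ (Real.exp_pos _).le ?_ _
    rw [Real.exp_neg, inv_eq_one_div]
    apply one_div_le_one_div_of_le (by norm_num)
    have := Real.add_one_le_exp (1 : ℝ)
    linarith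
  have h6 := h3.trans (h4.trans h5)
  calc 2 ^ t * (1 - p / 2) ^ Fintype.card I ≤ 2 ^ t * (1 / 2) ^ (t + R) :=
        mul_le_mul_of_nonneg_left h6 (by positivity)
    _ = (1 / 2) ^ R := by
        rw [pow_add, ← mul_assoc, ← mul_pow]
        norm_num

open Classical in
/-- the output of an algorithm becomes a decision tree -/
theorem adm_fin {m T : ℕ} {F : (I → Bool) → Oracle} (hF : Adm m T F) {k J : ℕ} (hk : 1 ≤ k)
    (hT : 1 ≤ T) (hJ : T ≤ m ^ 2 ^ J) {Y : Set (List Bool)} {M : Alg}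
    (hY : ∀ y ∈ Y, M.p.eval y.length ≤ T) {f : (I → Bool) → Bool}
    (hf : ∀ z, f z = true ↔ ∃ y ∈ Y, M.out (CC.cut T (F z)) y = some [true]) :
    Ex (wq ((1 / (24 * ((T * k : ℕ) : ℝ))) ^ (J + 1))) (fun ρ : Restr I =>
      if ¬ DTr k (rs f ρ) then (1 : ℝ) else 0) ≤ (J + 1) * 2 ^ (T + 1) * (1 / 2) ^ (k + 1) := by
  set w : ℕ := T * k with hw
  have hw1 : 1 ≤ w := Nat.succ_le_of_lt (Nat.mul_pos hT hk)
  have hwR : (1 : ℝ) ≤ w := by exact_mod_cast hw1
  set q₀ : ℝ := 1 / (24 * w) with hq₀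
  have h0 : 0 < q₀ := by positivity
  have h1 : q₀ ≤ 1 / 3 := by
    rw [hq₀]
    refine one_div_le_one_div_of_le (by norm_num) (by linarith)
  have hhalf : 12 * (w : ℝ) * q₀ = 1 / 2 := by
    rw [hq₀]
    field_simp
    norm_num
  have hst := hF.steps hk hT h0.le h1 J
  rw [← hw, hhalf] at hst
  rw [pow_succ, wq_cmp]
  have hwj : ∀ a, 0 ≤ wq (q₀ ^ J) a :=
    wq_nonneg (pow_nonneg h0.le J) (pow_le_one₀ h0.le (by linarith))
  have hin : ∀ ρ : Restr I, Ex (wq q₀) (fun τ : Restr I =>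
      if ¬ DTr k (rs f (cmp ρ τ)) then (1 : ℝ) else 0) ≤
      (if ¬ Gd F k (m ^ 2 ^ J) T ρ then (1 : ℝ) else 0) + (1 / 2) ^ (k + 1) := by
    intro ρ
    by_cases hGd : Gd F k (m ^ 2 ^ J) T ρ
    · rw [if_neg (not_not.2 hGd), zero_add]
      have h2 := cert_alg hGd hJ le_rfl hY hf
      have h3 := switch (k := k) (Nat.succ_le_of_lt (Nat.mul_pos hT hk)) h0.le h1 h2
      rw [← hw, hhalf] at h3
      refine le_trans (le_of_eq ?_) h3
      congr 1
      funext τ
      rw [rs_cmp]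
    · rw [if_pos hGd]
      have h2 : Ex (wq q₀) (fun τ : Restr I => if ¬ DTr k (rs f (cmp ρ τ)) then (1 : ℝ) else 0) ≤
          Ex (wq q₀) (fun _ : Restr I => 1) :=
        Ex_mono (wq_nonneg h0.le (by linarith)) fun τ => by split_ifs <;> norm_num
      rw [Ex_const (wq_sum _)] at h2
      have : (0 : ℝ) ≤ (1 / 2) ^ (k + 1) := by positivity
      linarith
  refine (Ex_mono hwj hin).trans ?_
  rw [Ex_add, Ex_const (wq_sum _)]
  have h4 : (1 : ℝ) ≤ 2 ^ (T + 1) := one_le_pow₀ (by norm_num)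
  have h5 : (0 : ℝ) ≤ (1 / 2) ^ (k + 1) := by positivity
  have h6 : (1 / 2 : ℝ) ^ (k + 1) ≤ 2 ^ (T + 1) * (1 / 2) ^ (k + 1) := by nlinarith
  calc _ ≤ J * (2 ^ (T + 1) * (1 / 2 : ℝ) ^ (k + 1)) + 2 ^ (T + 1) * (1 / 2) ^ (k + 1) :=
        add_le_add hst h6
    _ = _ := by ring

/-- the odd and the even distribution -/
noncomputable def Od (z : I → Bool) : ℝ := (1 - chi z) / 2 ^ Fintype.card I

/-- the even distribution -/
noncomputable def Ev (z : I → Bool) : ℝ := (1 + chi z) / 2 ^ Fintype.card I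

theorem chi_cases (z : I → Bool) : chi z = 1 ∨ chi z = -1 := by
  have h : |chi z| = 1 := by
    unfold chi
    rw [abs_prod]
    exact prod_eq_one fun i _ => abs_sg _
  exact (abs_eq (by norm_num)).1 h

theorem Od_nonneg (z : I → Bool) : 0 ≤ Od z := by
  unfold Od
  rcases chi_cases z with h | h <;> rw [h] <;> positivity

theorem Ev_nonneg (z : I → Bool) : 0 ≤ Ev z := by
  unfold Ev
  rcases chi_cases z with h | h <;> rw [h] <;> positivity

theorem sum_chi [Nonempty I] : ∑ z : I → Bool, chi z = 0 := by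
  unfold chi
  rw [RT.sum_prod (fun _ b => sg b)]
  obtain ⟨i⟩ := (inferInstance : Nonempty I)
  refine prod_eq_zero (mem_univ i) ?_
  rw [Fintype.sum_bool]
  norm_num [sg]

theorem sum_Od [Nonempty I] : ∑ z : I → Bool, Od z = 1 := by
  unfold Od
  rw [← sum_div, sum_sub_distrib, sum_chi, sub_zero, sum_const, card_univ]
  simp

theorem sum_Ev [Nonempty I] : ∑ z : I → Bool, Ev z = 1 := by
  unfold Ev
  rw [← sum_div, sum_add_distrib, sum_chi, add_zero, sum_const, card_univ]
  simp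

theorem chi_eq (z : I → Bool) : chi z = (-1) ^ (univ.filter fun i => z i = true).card := by
  unfold chi sg
  rw [prod_ite, prod_const, prod_const_one, mul_one]

theorem Od_ne {z : I → Bool} (h : Od z ≠ 0) : Odd (univ.filter fun i => z i = true).card := by
  by_contra hcon
  rw [Nat.not_odd_iff_even] at hcon
  apply h
  unfold Od
  rw [chi_eq, hcon.neg_one_pow]
  simp

theorem Ev_ne {z : I → Bool} (h : Ev z ≠ 0) : ¬ Odd (univ.filter fun i => z i = true).card := by
  intro hcon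
  apply h
  unfold Ev
  rw [chi_eq, hcon.neg_one_pow]
  simp

theorem Od_sub_Ev (f : (I → Bool) → Bool) :
    |∑ a, Od a * br f a - ∑ a, Ev a * br f a| = 2 * |dS univ (br f) 0| := by
  have h1 : ∑ a, Od a * br f a - ∑ a, Ev a * br f a = -(2 * dS univ (br f) 0) := by
    rw [dS_univ, ← sum_sub_distrib, sum_div, mul_sum, ← sum_neg_distrib]
    refine sum_congr rfl fun a _ => ?_
    unfold Od Ev
    ring
  rw [h1, abs_neg, abs_mul, abs_of_nonneg (by norm_num : (0 : ℝ) ≤ 2)]

end Pool.Agent.H9x.RP
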