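import Pool.Agent.H9x.RP.Fml
import Pool.Agent.H9x.RP.Cnt
import Pool.Agent.H9x.RT.Up
import Pool.Agent.H9x.RU.Mach

/-!
# One step of the construction
-/

set_option autoImplicit false

namespace Pool.Agent.H9x.RP

open Finset H568R2 Pool.Agent.H676 Pool.Agent.H620R2.Gauge Pool.Agent.NPC Pool.Agent.H622R2
  Pool.Agent.H622R2.Exp

open Pool.Agent.H9x.RT (ll lev Kq mkp EE EC EC_le hyb exists_list block_diff orc_sel UU hs card_hs)

open Pool.Agent.H9x.RU (EE_ge)

/-- the content of a free block -/
def fe (n : ℕ) (y : (Fin (5 * n + 22) → Bool) → Bool) (v : List Bool) : Bool :=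
  if v.take (3 * n + 19) = List.replicate (3 * n + 19) false then
    en (5 * n + 22) y (v.drop (3 * n + 19)) else false

theorem fe_rep (n : ℕ) (y : (Fin (5 * n + 22) → Bool) → Bool) (w : List Bool) :
    fe n y (List.replicate (3 * n + 19) false ++ w) = en (5 * n + 22) y w := by
  unfold fe
  have h1 : (List.replicate (3 * n + 19) false ++ w).take (3 * n + 19) =
      List.replicate (3 * n + 19) false := List.take_left' (by simp)
  have h2 : (List.replicate (3 * n + 19) false ++ w).drop (3 * n + 19) = w :=
    List.drop_left' (by simp)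
  rw [if_pos h1, h2]

theorem fe_cls (n : ℕ) (v : List Bool) :
    (∃ i, ∀ y : (Fin (5 * n + 22) → Bool) → Bool, fe n y v = y i) ∨
      ∀ y : (Fin (5 * n + 22) → Bool) → Bool, fe n y v = false := by
  unfold fe
  split_ifs
  · exact en_cls _ _
  · exact Or.inr fun y => rfl

/-- the parity of the content of a free block -/
def OF (n : ℕ) (c : List Bool → Bool) : Prop :=
  Odd (cnt (5 * n + 22) fun w => c (List.replicate (3 * n + 19) false ++ w) = true)

/-- the parity of the content of a block -/
def OB (s : ℕ) (c : List Bool → Bool) : Prop := Odd (cnt (ll s + 1) fun w => c w = true)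

theorem cnt_en (m : ℕ) (z : (Fin m → Bool) → Bool) :
    cnt m (fun w => en m z w = true) = (univ.filter fun i => z i = true).card := by
  unfold cnt
  refine congrArg Finset.card (Finset.ext fun i => ?_)
  simp only [Finset.mem_filter, mem_univ, true_and, en_ofFn]

theorem ob_en (s : ℕ) (z : (Fin (ll s + 1) → Bool) → Bool) :
    OB s (en (ll s + 1) z) ↔ Odd (univ.filter fun i => z i = true).card := by
  unfold OB
  rw [cnt_en]

theorem of_fe (n : ℕ) (y : (Fin (5 * n + 22) → Bool) → Bool) :
    OF n (fe n y) ↔ Odd (univ.filter fun i => y i = true).card := by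
  unfold OF
  simp only [fe_rep]
  rw [cnt_en]

/-- the data are good -/
def Good (S : ℕ → Polynomial ℕ) (D : RT.Dat) : Prop :=
  ∀ c, OB (lev S c) (D.bl c true) ∧ ¬ OB (lev S c) (D.bl c false)

theorem cnt_real (m : ℕ) (P : List Bool → Prop) [DecidablePred P] :
    ((cnt m P : ℕ) : ℝ) = ∑ w : Fin m → Bool, if P (List.ofFn w) then (1 : ℝ) else 0 := by
  have h1 : cnt m P = (univ.filter fun w : Fin m → Bool => P (List.ofFn w)).card := by
    unfold cnt
    refine congrArg Finset.card (Finset.ext fun i => ?_)
    simp only [Finset.mem_filter, mem_univ, true_and]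
  rw [h1, card_filter]
  push_cast
  exact sum_congr rfl fun w _ => by split_ifs <;> simp

theorem card_UU (S : ℕ → Polynomial ℕ) (n T : ℕ) : (UU S n T).card ≤ 2 ^ (2 * T + 1) := by
  unfold UU
  refine (card_filter_le _ _).trans ?_
  rw [card_product, card_range]
  calc (T + 1) * (hs T).card ≤ 2 ^ T * 2 ^ (T + 1) :=
        Nat.mul_le_mul Nat.lt_two_pow_self (card_hs T)
    _ = 2 ^ (2 * T + 1) := by rw [← pow_add]; congr 1; ring

variable {S N : ℕ → Polynomial ℕ} {b : ℕ → ℕ} {g : ℕ → SAlg × Polynomial ℕ}
  {h : ℕ → Alg × Polynomial ℕ}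

/-- the depth of the decision trees -/
def kq (J T : ℕ) : ℕ := J + 4 * T + 7

theorem one_step (hc : Kq g h S N) {n T J P : ℕ} (M : Alg) (hn : 1 ≤ n) (hnT : n ≤ T)
    (hJ : T ≤ n ^ 2 ^ J) (hPT : P ≤ T)
    (hgap : ∀ s', n ≤ s' → T < s' ^ (b s' + 1)) (hr : M.p.eval (2 * P + 1 + n) ≤ T)
    (hcut : ∀ (A : Oracle) (z : List Bool), z.length = 2 * P + 1 + n →
      M.out (CC.cut T A) z = M.out A z)
    (hnum : 2 * (kq J T + (3 * T + 7)) * (24 * (T * kq J T)) ^ (J + 1) ≤ 2 ^ n)
    (D : RT.Dat) (hD : Good S D) :
    ∃ D' : RT.Dat, Good S D' ∧ (∀ c, lev S c < n → D'.bl c = D.bl c) ∧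
      (∀ s < n, D'.fr s = D.fr s) ∧
      ¬ (OF n (D'.fr n) ↔ 2 ^ P < 2 * cnt P fun w =>
        M.out (RT.orc S N b g h D') (pairBits w (List.replicate n false)) = some [true]) := by
  classical
  by_contra hcon
  push Not at hcon
  set x := List.replicate n false with hx
  have hxl : x.length = n := by simp [hx]
  obtain ⟨C, hCn, hCm, hCp, hCs⟩ := exists_list hc.big n T
  set frn : ((Fin (5 * n + 22) → Bool) → Bool) → ℕ → List Bool → Bool :=
    fun y => Function.update D.fr n (fe n y) with hfrn
  set φ : (Fin P → Bool) × ((Fin (5 * n + 22) → Bool) → Bool) →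
    (ℕ × List Bool → Bool → List Bool → Bool) → ℝ :=
    fun i B => if M.out (RT.orc S N b g h ⟨B, frn i.2⟩) (pairBits (List.ofFn i.1) x) = some [true]
      then 1 else 0 with hφ
  set wt : (Fin P → Bool) × ((Fin (5 * n + 22) → Bool) → Bool) → ℝ :=
    fun i => (1 / 2 ^ P) * (Od i.2 - Ev i.2) with hwt
  set F : (ℕ × List Bool → Bool → List Bool → Bool) → ℝ := fun B =>
    ∑ i, wt i * φ i B with hF
  set δ : ℝ := 4 * (1 / 2) ^ (3 * T + 7) with hδ
  have hδ0 : 0 ≤ δ := by positivity
  have hT1 : 1 ≤ T := hn.trans hnT
  have hP2 : (0 : ℝ) < 2 ^ P := by positivity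
  have hlen : ∀ w : Fin P → Bool, (pairBits (List.ofFn w) x).length = 2 * P + 1 + n := by
    intro w
    rw [length_pairBits, List.length_ofFn, hxl]
  have hwS : ∑ i : (Fin P → Bool) × ((Fin (5 * n + 22) → Bool) → Bool), |wt i| ≤ 2 := by
    rw [Fintype.sum_prod_type]
    have h1 : ∀ w : Fin P → Bool, ∑ y : (Fin (5 * n + 22) → Bool) → Bool, |wt (w, y)| ≤
        (1 / 2 ^ P) * 2 := by
      intro w
      have h2 : ∀ y : (Fin (5 * n + 22) → Bool) → Bool, |wt (w, y)| ≤
          (1 / 2 ^ P) * (Od y + Ev y) := by
        intro y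
        show |(1 / 2 ^ P) * (Od y - Ev y)| ≤ _
        rw [abs_mul, abs_of_nonneg (by positivity : (0 : ℝ) ≤ 1 / 2 ^ P)]
        refine mul_le_mul_of_nonneg_left ?_ (by positivity)
        rw [abs_le]
        have h3 := Od_nonneg y
        have h4 := Ev_nonneg y
        constructor <;> linarith
      refine (sum_le_sum fun y _ => h2 y).trans ?_
      rw [← mul_sum, sum_add_distrib, sum_Od, sum_Ev]
      norm_num
    refine (sum_le_sum fun w _ => h1 w).trans ?_
    rw [sum_const, card_univ, nsmul_eq_mul]
    have h5 : ((Fintype.card (Fin P → Bool) : ℕ) : ℝ) = 2 ^ P := by simp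
    rw [h5]
    have : (2 : ℝ) ^ P * (1 / 2 ^ P * 2) = 2 := by field_simp
    rw [this]
  -- the hybrid argument
  have hhyb := hyb (Z := fun c => (Fin (ll (lev S c) + 1) → Bool) → Bool)
    (P := fun c => Od) (Q := fun c => Ev)
    (enc := fun c => en (ll (lev S c) + 1)) (fun c => Od_nonneg) (fun c => sum_Od)
    (fun c => Ev_nonneg) (fun c => sum_Ev) F (fun c => 2 * δ) C hCn (by
      intro c C₂ hsuf D' hcol
      have hcC : c ∈ C := hsuf.subset List.mem_cons_self
      obtain ⟨hc1, hc2⟩ := (hCm c).1 hcC
      have hafter : ∀ c', lev S c < lev S c' → lev S c' ≤ T → c' ∈ C₂ := by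
        intro c' h1 h2
        have h3 : c' ∈ C := (hCm c').2 ⟨by omega, h2⟩
        obtain ⟨C₁, hC₁⟩ := hsuf
        rw [← hC₁, List.mem_append] at h3
        rw [← hC₁, List.pairwise_append] at hCp
        rcases h3 with h3 | h3
        · have := hCp.2.2 c' h3 c List.mem_cons_self
          omega
        · rcases List.mem_cons.1 h3 with h3 | h3
          · subst h3
            exact absurd h1 (lt_irrefl _)
          · exact h3
      have claim : ∀ i, |∑ z, ∑ z', Od z * (Ev z' *
          φ i (Function.update D' c (mkp (en (ll (lev S c) + 1) z) (en (ll (lev S c) + 1) z')))) -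
          ∑ z', Ev z' * φ i (Function.update D' c (mkp (en (ll (lev S c) + 1) z')
            (en (ll (lev S c) + 1) z')))| ≤ δ := by
        intro i
        obtain ⟨t, ht⟩ := orc_sel (N := N) (b := b) (g := g) (h := h) hc.big D' (frn i.2) c
        set hh : ((Fin (ll (lev S c) + 1) → Bool) → Bool) → Bool :=
          fun z => decide (M.out (RT.orc S N b g h ⟨Function.update D' c
            (mkp (en (ll (lev S c) + 1) z) (en (ll (lev S c) + 1) z)), frn i.2⟩)
            (pairBits (List.ofFn i.1) x) = some [true]) with hhh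
        have hφh : ∀ z, φ i (Function.update D' c (mkp (en (ll (lev S c) + 1) z)
            (en (ll (lev S c) + 1) z))) = br hh z := by
          intro z
          show (if _ then (1 : ℝ) else 0) = if hh z then (1 : ℝ) else 0
          rw [hhh]
          simp only [decide_eq_true_eq]
        refine block_diff sum_Od sum_Ev (H := br hh) (t := t) hδ0 (fun z z' => ?_) hφh ?_
        · rw [← hφh]
          show (if M.out (RT.orc S N b g h ⟨_, frn i.2⟩) _ = some [true] then (1 : ℝ) else 0) =
            if M.out (RT.orc S N b g h ⟨_, frn i.2⟩) _ = some [true] then (1 : ℝ) else 0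
          rw [ht]
          cases t <;> rfl
        · have hFam : Fam S (lev S c) T (fun z => (⟨Function.update D' c (mkp
              (en (ll (lev S c) + 1) z) (en (ll (lev S c) + 1) z)), frn i.2⟩ : RT.Dat)) := by
            refine ⟨fun c' h1 z z' => ?_, fun v _ z z' => rfl, fun c' h1 h2 => ?_,
              fun s' v => Or.inl ⟨frn i.2 s' v, fun z => rfl⟩⟩
            · have hne : c' ≠ c := by rintro rfl; exact absurd h1 (lt_irrefl _)
              show Function.update D' c _ c' = Function.update D' c _ c'
              rw [Function.update_of_ne hne, Function.update_of_ne hne]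
            · by_cases hne : c' = c
              · right
                intro v
                subst hne
                rcases en_cls (ll (lev S c') + 1) v with ⟨i₀, hi₀⟩ | h0
                · right
                  refine ⟨i₀, fun z t => ?_⟩
                  show Function.update D' c' _ c' t v = _
                  rw [Function.update_self, ← hi₀ z]
                  cases t <;> rfl
                · left
                  refine ⟨false, fun z t => ?_⟩
                  show Function.update D' c' _ c' t v = _
                  rw [Function.update_self, ← h0 z]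
                  cases t <;> rfl
              · left
                refine ⟨fun z z' => ?_, ?_⟩
                · show Function.update D' c _ c' = Function.update D' c _ c'
                  rw [Function.update_of_ne hne, Function.update_of_ne hne]
                · rcases h1.eq_or_lt with h3 | h3
                  · exact Or.inl h3.symm
                  · right
                    intro z
                    show Function.update D' c _ c' true = Function.update D' c _ c' false
                    rw [Function.update_of_ne hne]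
                    exact hcol c' (hafter c' h3 h2)
          refine hFam.par_le (b := b) (k := kq J T) (J := J) (R := 3 * T + 7) hc
            (fun s' hs' => hgap s' (by omega)) hT1
            (hJ.trans (Nat.pow_le_pow_left hc1 _)) (by unfold kq; omega) (by unfold kq; omega) ?_
            (M := M) (x := pairBits (List.ofFn i.1) x) (by rw [hlen]; exact hr)
            (fun A => hcut A _ (hlen _)) (fun z => by rw [hhh]; exact decide_eq_true_iff)
          refine hnum.trans ?_
          simp only [Fintype.card_fun, Fintype.card_bool, Fintype.card_fin]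
          refine Nat.pow_le_pow_right (by norm_num) ?_
          unfold ll
          omega
      -- combine
      set X : ((ℕ × List Bool → Bool → List Bool → Bool) → ℝ) → ℝ := fun G =>
        ∑ z, ∑ z', Od z * (Ev z' *
          G (Function.update D' c (mkp (en (ll (lev S c) + 1) z) (en (ll (lev S c) + 1) z')))) -
          ∑ z', Ev z' * G (Function.update D' c (mkp (en (ll (lev S c) + 1) z')
            (en (ll (lev S c) + 1) z'))) with hX
      have hlin : X F = ∑ i, wt i * X (φ i) := by
        rw [hX, hF]
        simp only [mul_sub, mul_sum, sum_sub_distrib]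
        congr 1
        · rw [sum_congr rfl fun z _ => sum_comm, sum_comm]
          exact sum_congr rfl fun y _ => sum_congr rfl fun z _ => sum_congr rfl fun z' _ => by ring
        · rw [sum_comm]
          exact sum_congr rfl fun y _ => sum_congr rfl fun z' _ => by ring
      show |X F| ≤ _
      rw [hlin]
      refine (abs_sum_le_sum_abs _ _).trans ?_
      have h1 : ∀ i, |wt i * X (φ i)| ≤ |wt i| * δ := fun i => by
        rw [abs_mul]
        exact mul_le_mul_of_nonneg_left (claim i) (abs_nonneg _)
      refine (sum_le_sum fun i _ => h1 i).trans ?_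
      rw [← sum_mul]
      exact mul_le_mul_of_nonneg_right hwS hδ0) D.bl
  -- the value on the support
  have hFB : ∀ B, F B = (1 / 2 ^ P) * ∑ y, (Od y - Ev y) * ((cnt P fun w =>
      M.out (RT.orc S N b g h ⟨B, frn y⟩) (pairBits w x) = some [true] : ℕ) : ℝ) := by
    intro B
    rw [hF]
    simp only
    rw [Fintype.sum_prod_type, sum_comm, mul_sum]
    refine sum_congr rfl fun y _ => ?_
    rw [cnt_real, mul_sum, mul_sum]
    refine sum_congr rfl fun w _ => ?_
    show (1 / 2 ^ P) * (Od y - Ev y) * _ = _
    rw [mul_assoc]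
  have hEE : 1 / 2 ^ (P + 1) ≤ EE (Z := fun c => (Fin (ll (lev S c) + 1) → Bool) → Bool)
      (fun c => Od) (fun c => Ev) (fun c => en (ll (lev S c) + 1)) C F D.bl := by
    refine EE_ge (G := fun c v => OB (lev S c) (v true) ∧ ¬ OB (lev S c) (v false))
      (fun c => Od_nonneg) (fun c => Ev_nonneg) (fun c => sum_Od) (fun c => sum_Ev)
      (fun c z z' hz hz' => ⟨?_, ?_⟩) C D.bl fun B hB hB' => ?_
    · show OB _ (en _ z)
      rw [ob_en]
      exact Od_ne hz
    · show ¬ OB _ (en _ z')
      rw [ob_en]
      exact Ev_ne hz'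
    · have hgood : ∀ y : (Fin (5 * n + 22) → Bool) → Bool,
          (Odd (univ.filter fun i => y i = true).card ↔ 2 ^ P < 2 * cnt P fun w =>
            M.out (RT.orc S N b g h ⟨B, frn y⟩) (pairBits w x) = some [true]) := by
        intro y
        have h1 := hcon ⟨B, frn y⟩ (fun c => by
          by_cases hcC : c ∈ C
          · exact hB c hcC
          · show OB _ (B c true) ∧ ¬ OB _ (B c false)
            rw [hB' c hcC]
            exact hD c) (fun c hc' => hB' c fun h2 => by have := ((hCm c).1 h2).1; omega)
          (fun s hs => by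
            show frn y s = D.fr s
            rw [hfrn]
            exact Function.update_of_ne (by omega) ..)
        have h2 : frn y n = fe n y := by rw [hfrn]; exact Function.update_self ..
        change OF n (frn y n) ↔ _ at h1
        rw [h2, of_fe] at h1
        exact h1
      rw [hFB]
      have h1 : ∀ y : (Fin (5 * n + 22) → Bool) → Bool,
          Od y * ((2 ^ P + 1) / 2) - Ev y * (2 ^ P / 2) ≤ (Od y - Ev y) * ((cnt P fun w =>
            M.out (RT.orc S N b g h ⟨B, frn y⟩) (pairBits w x) = some [true] : ℕ) : ℝ) := by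
        intro y
        set ct := cnt P fun w =>
            M.out (RT.orc S N b g h ⟨B, frn y⟩) (pairBits w x) = some [true] with hct
        have h2 : Od y * ((2 ^ P + 1) / 2) ≤ Od y * (ct : ℝ) := by
          by_cases hy : Od y = 0
          · rw [hy, zero_mul, zero_mul]
          · refine mul_le_mul_of_nonneg_left ?_ (Od_nonneg y)
            have h3 := (hgood y).1 (Od_ne hy)
            have h4 : ((2 ^ P + 1 : ℕ) : ℝ) ≤ ((2 * ct : ℕ) : ℝ) := by exact_mod_cast h3
            push_cast at h4
            linarith
        have h3 : Ev y * (ct : ℝ) ≤ Ev y * (2 ^ P / 2) := by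
          by_cases hy : Ev y = 0
          · rw [hy, zero_mul, zero_mul]
          · refine mul_le_mul_of_nonneg_left ?_ (Ev_nonneg y)
            have h3 := not_lt.1 fun h4 => Ev_ne hy ((hgood y).2 h4)
            have h4 : ((2 * ct : ℕ) : ℝ) ≤ ((2 ^ P : ℕ) : ℝ) := by exact_mod_cast h3
            push_cast at h4
            linarith
        rw [sub_mul]
        linarith
      have h2 := sum_le_sum fun y (_ : y ∈ (univ : Finset ((Fin (5 * n + 22) → Bool) → Bool))) => h1 y
      rw [sum_sub_distrib, ← sum_mul, ← sum_mul, sum_Od, sum_Ev, one_mul, one_mul] at h2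
      have h3 : (1 : ℝ) / 2 ^ (P + 1) = (1 / 2 ^ P) * ((2 ^ P + 1) / 2 - 2 ^ P / 2) := by
        rw [pow_succ]
        field_simp
        ring
      rw [h3]
      exact mul_le_mul_of_nonneg_left h2 (by positivity)
  -- the free block
  have hEC : |EC (Z := fun c => (Fin (ll (lev S c) + 1) → Bool) → Bool) (fun c => Ev)
      (fun c => en (ll (lev S c) + 1)) C F D.bl| ≤ δ := by
    refine EC_le (fun c => Ev_nonneg) (fun c => sum_Ev) C D.bl fun B hB _ => ?_
    have h0 : F B = ∑ w : Fin P → Bool, (1 / 2 ^ P) * (∑ y, Od y * φ (w, y) B -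
        ∑ y, Ev y * φ (w, y) B) := by
      rw [hF]
      simp only
      rw [Fintype.sum_prod_type]
      refine sum_congr rfl fun w _ => ?_
      rw [← sum_sub_distrib, mul_sum]
      refine sum_congr rfl fun y _ => ?_
      show (1 / 2 ^ P) * (Od y - Ev y) * _ = _
      ring
    rw [h0]
    refine (abs_sum_le_sum_abs _ _).trans ?_
    have h1 : ∀ w : Fin P → Bool, |(1 / 2 ^ P) * (∑ y, Od y * φ (w, y) B -
        ∑ y, Ev y * φ (w, y) B)| ≤ (1 / 2 ^ P) * δ := by
      intro w
      rw [abs_mul, abs_of_nonneg (by positivity : (0 : ℝ) ≤ 1 / 2 ^ P)]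
      refine mul_le_mul_of_nonneg_left ?_ (by positivity)
      set hh : ((Fin (5 * n + 22) → Bool) → Bool) → Bool := fun y =>
        decide (M.out (RT.orc S N b g h ⟨B, frn y⟩) (pairBits (List.ofFn w) x) = some [true])
        with hhh
      have hφh : ∀ y, φ (w, y) B = br hh y := by
        intro y
        show (if _ then (1 : ℝ) else 0) = if hh y then (1 : ℝ) else 0
        rw [hhh]
        simp only [decide_eq_true_eq]
      simp only [hφh]
      have hFam : Fam S n T (fun y => (⟨B, frn y⟩ : RT.Dat)) := by
        refine ⟨fun c' _ z z' => rfl, fun s' hs z z' => ?_, fun c' h1 h2 => ?_, fun s' v => ?_⟩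
        · show frn z s' = frn z' s'
          have hne : s' ≠ n := by omega
          rw [hfrn]
          show Function.update D.fr n _ s' = Function.update D.fr n _ s'
          rw [Function.update_of_ne hne, Function.update_of_ne hne]
        · left
          exact ⟨fun z z' => rfl, Or.inr fun z => hB c' ((hCm c').2 ⟨h1, h2⟩)⟩
        · by_cases hs : s' = n
          · subst hs
            have h5 : ∀ y, frn y s' = fe s' y := fun y => by
              rw [hfrn]; exact Function.update_self ..
            rcases fe_cls s' v with ⟨i, hi⟩ | h0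
            · right
              exact ⟨i, fun z => by show frn z s' v = _; rw [h5, hi]⟩
            · left
              exact ⟨false, fun z => by show frn z s' v = _; rw [h5, h0]⟩
          · left
            refine ⟨D.fr s' v, fun z => ?_⟩
            show frn z s' v = _
            rw [hfrn]
            show Function.update D.fr n _ s' v = _
            rw [Function.update_of_ne hs]
      refine hFam.par_le (b := b) (k := kq J T) (J := J) (R := 3 * T + 7) hc hgap hT1
        hJ (by unfold kq; omega) (by unfold kq; omega) ?_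
        (M := M) (x := pairBits (List.ofFn w) x) (by rw [hlen]; exact hr)
        (fun A => hcut A _ (hlen _)) (fun z => by rw [hhh]; exact decide_eq_true_iff)
      refine hnum.trans ?_
      simp only [Fintype.card_fun, Fintype.card_bool, Fintype.card_fin]
      refine Nat.pow_le_pow_right (by norm_num) ?_
      omega
    refine (sum_le_sum fun w _ => h1 w).trans (le_of_eq ?_)
    rw [sum_const, card_univ, nsmul_eq_mul]
    have h5 : ((Fintype.card (Fin P → Bool) : ℕ) : ℝ) = 2 ^ P := by simp
    rw [h5]
    field_simp
  -- the contradiction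
  rw [hCs, sum_const, nsmul_eq_mul] at hhyb
  have h1 : (((UU S n T).card : ℕ) : ℝ) ≤ 2 ^ (2 * T + 1) := by exact_mod_cast card_UU S n T
  have h2 : (((UU S n T).card : ℕ) : ℝ) * (2 * δ) ≤ 2 ^ (2 * T + 1) * (2 * δ) :=
    mul_le_mul_of_nonneg_right h1 (by linarith)
  have h3 := abs_le.1 hhyb
  have h4 := abs_le.1 hEC
  have h5 : (1 : ℝ) / 2 ^ (T + 1) ≤ 1 / 2 ^ (P + 1) :=
    one_div_le_one_div_of_le (by positivity) (pow_le_pow_right₀ (by norm_num) (by omega))
  have h6 : (2 : ℝ) ^ (2 * T + 1) * (2 * δ) + δ < 1 / 2 ^ (T + 1) := by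
    have h7 : δ = 1 / (2 ^ (T + 1) * 2 ^ (2 * T + 4)) := by
      rw [hδ, ← pow_add, show 3 * T + 7 = (T + 1 + (2 * T + 4)) + 2 by ring, pow_add _ _ 2]
      rw [one_div_pow, one_div_pow]
      field_simp
      norm_num
    have h8 : (2 : ℝ) ^ (2 * T + 4) = 16 * 2 ^ (2 * T) := by rw [pow_add]; norm_num; ring
    have h9 : (2 : ℝ) ^ (2 * T + 1) = 2 * 2 ^ (2 * T) := by rw [pow_add]; norm_num; ring
    have h10 : (0 : ℝ) < 2 ^ (2 * T) := by positivity
    have h11 : (1 : ℝ) ≤ 2 ^ (2 * T) := one_le_pow₀ (by norm_num)
    have h12 : (0 : ℝ) < 2 ^ (T + 1) := by positivity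
    rw [h7, h8, h9]
    have h13 : 2 * (2 : ℝ) ^ (2 * T) * (2 * (1 / (2 ^ (T + 1) * (16 * 2 ^ (2 * T))))) +
        1 / (2 ^ (T + 1) * (16 * 2 ^ (2 * T))) =
        (1 / 2 ^ (T + 1)) * ((4 * 2 ^ (2 * T) + 1) / (16 * 2 ^ (2 * T))) := by
      field_simp
      ring
    rw [h13]
    have h14 : (4 * (2 : ℝ) ^ (2 * T) + 1) / (16 * 2 ^ (2 * T)) < 1 := by
      rw [div_lt_one (by positivity)]
      linarith
    calc (1 / (2 : ℝ) ^ (T + 1)) * ((4 * 2 ^ (2 * T) + 1) / (16 * 2 ^ (2 * T))) <
          (1 / 2 ^ (T + 1)) * 1 := mul_lt_mul_of_pos_left h14 (by positivity)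
      _ = _ := mul_one _
  linarith [h3.1, h3.2, h4.1, h4.2]

end Pool.Agent.H9x.RP
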