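import Pool.Agent.H9x.RP.Stp
import Pool.Agent.H9x.RT.W1
import Pool.Agent.H620R2.Gauge2.Trans

/-!
# The world in which `P = PH` and `⊕P = PSPACE`, but `PP` is different from both
-/

set_option autoImplicit false

namespace Pool.Agent.H9x.RP

open Finset H568R2 Pool.Agent.H676 Pool.Agent.H620R2.Gauge Pool.Agent.NPC Pool.Agent.H622R2
  Pool.Agent.H622R2.Exp Filter

open Pool.Agent.H9x.RT (ll lev Kq code_true time_of_pspace p_of_np Ix cI orc_on orc_off orc_loc
  frd frd_rep lead cut_congr exists_kq ll_eval isP_of_isPH)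

open Pool.Agent.TH678.RS (bt bt_mono bt_pow)

open Pool.Agent.TH678.SETH (cS)

open Pool.Agent.H9x.V1 (Ac ac_congr poly_rep poly_cS IsTime finite_ext)

/-- the data of one level -/
abbrev Lv : Type := (ℕ × List Bool → Bool → List Bool → Bool) × (List Bool → Bool)

/-- the data given by the levels -/
def dat (S : ℕ → Polynomial ℕ) (κ : ℕ → Lv) : RT.Dat :=
  ⟨fun c => (κ (lev S c)).1 c, fun s => (κ s).2⟩

/-- the data of one level are good -/
def GLv (S : ℕ → Polynomial ℕ) (s : ℕ) (v : Lv) : Prop :=
  ∀ c, lev S c = s → OB s (v.1 c true) ∧ ¬ OB s (v.1 c false)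

theorem good_dat {S : ℕ → Polynomial ℕ} {κ : ℕ → Lv} (h : ∀ s, GLv S s (κ s)) :
    Good S (dat S κ) :=
  fun c => (h (lev S c)) c rfl

/-- the choice of the numbers -/
theorem sizes {α : ℕ → ℕ} (hα : Monotone α) (hα' : Tendsto α atTop atTop) (M : Alg)
    (p : Polynomial ℕ) (N₀ : ℕ) :
    ∃ n T J : ℕ, N₀ ≤ n ∧ 1 ≤ n ∧ n ≤ T ∧ T ≤ n ^ 2 ^ J ∧ p.eval n ≤ T ∧
      (∀ s', n ≤ s' → T < s' ^ (bt α s' + 1)) ∧ M.p.eval (2 * p.eval n + 1 + n) ≤ T ∧
      (∀ (A : Oracle) (z : List Bool), z.length = 2 * p.eval n + 1 + n →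
        M.out (CC.cut T A) z = M.out A z) ∧
      2 * (kq J T + (3 * T + 7)) * (24 * (T * kq J T)) ^ (J + 1) ≤ 2 ^ n := by
  obtain ⟨qb, hqb⟩ := M.out_local
  set R : Polynomial ℕ := Polynomial.C 2 * p + 1 + Polynomial.X with hR
  have hRe : ∀ n, R.eval n = 2 * p.eval n + 1 + n := fun n => by rw [hR]; simp
  set τ : Polynomial ℕ := qb.comp R + M.p.comp R + Polynomial.X + p with hτ
  have hτe : ∀ n, τ.eval n = qb.eval (2 * p.eval n + 1 + n) + M.p.eval (2 * p.eval n + 1 + n) + n +
      p.eval n := fun n => by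
    rw [hτ]
    simp [Polynomial.eval_comp, hRe]
  obtain ⟨d, _, hd⟩ := YAux.poly_bound τ
  set J : ℕ := 2 * d with hJ
  set K : Polynomial ℕ := Polynomial.C J + Polynomial.C 4 * τ + Polynomial.C 7 with hK
  set Λ : Polynomial ℕ := Polynomial.C 2 * (K + (Polynomial.C 3 * τ + Polynomial.C 7)) *
    (Polynomial.C 24 * (τ * K)) ^ (J + 1) with hΛ
  have hΛe : ∀ n, Λ.eval n = 2 * (kq J (τ.eval n) + (3 * τ.eval n + 7)) *
      (24 * (τ.eval n * kq J (τ.eval n))) ^ (J + 1) := by
    intro n
    rw [hΛ, hK]
    simp only [Polynomial.eval_add, Polynomial.eval_mul, Polynomial.eval_C, Polynomial.eval_pow]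
    rfl
  have h1 := E0.poly_le Λ 1
  have h2 : ∀ᶠ n : ℕ in atTop, 2 * d ≤ bt α n := by
    obtain ⟨m, h3, h4⟩ := ((hα'.eventually_ge_atTop (2 * d)).and
      (eventually_ge_atTop (2 * d))).exists
    filter_upwards [eventually_ge_atTop (2 ^ m)] with n hn
    have h5 := bt_mono hα hn
    rw [bt_pow] at h5
    exact (le_min h3 h4).trans h5
  rw [eventually_atTop] at h2
  obtain ⟨n₂, hn₂⟩ := h2
  obtain ⟨n, h3, h4, h5⟩ := (h1.and ((eventually_ge_atTop (max N₀ n₂)).and
    (eventually_ge_atTop 2))).exists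
  rw [one_mul, hΛe] at h3
  have hTn : τ.eval n ≤ n ^ (2 * d) := by
    refine (hd n).trans ?_
    rw [pow_mul]
    refine Nat.pow_le_pow_left ?_ d
    nlinarith
  refine ⟨n, τ.eval n, J, (le_max_left _ _).trans h4, by omega, by rw [hτe]; omega, ?_,
    by rw [hτe]; omega, ?_, ?_, ?_, h3⟩
  · refine hTn.trans (Nat.pow_le_pow_right (by omega) ?_)
    rw [hJ]
    exact Nat.lt_two_pow_self.le
  · intro s' hs'
    have h6 := hn₂ s' ((le_max_right _ _).trans (h4.trans hs'))
    calc τ.eval n ≤ n ^ (2 * d) := hTn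
      _ ≤ s' ^ (2 * d) := Nat.pow_le_pow_left hs' _
      _ < s' ^ (2 * d + 1) := Nat.pow_lt_pow_right (by omega) (by omega)
      _ ≤ s' ^ (bt α s' + 1) := Nat.pow_le_pow_right (by omega) (by omega)
  · rw [hτe]; omega
  · intro A z hz
    obtain ⟨Q, _, h6, h7⟩ := hqb A z
    refine h7 _ fun q hq => ?_
    unfold CC.cut
    rw [if_pos]
    have h8 := h6 q hq
    rw [hz] at h8
    rw [hτe]
    omega

variable {S N : ℕ → Polynomial ℕ} {b : ℕ → ℕ} {g : ℕ → SAlg × Polynomial ℕ}
  {h : ℕ → Alg × Polynomial ℕ}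

/-- the language of the free blocks -/
def LF (D : RT.Dat) : Set (List Bool) := {x | OF x.length (D.fr x.length)}

/-- **One stage.** -/
theorem stage {α : ℕ → ℕ} (hα : Monotone α) (hα' : Tendsto α atTop atTop) (hc : Kq g h S N)
    (M : Alg) (p : Polynomial ℕ) (N₀ : ℕ) (κ : ℕ → Lv) (hκ : ∀ s, GLv S s (κ s)) :
    ∃ (κ' : ℕ → Lv) (N' : ℕ), (∀ s, GLv S s (κ' s)) ∧ (∀ s < N₀, κ' s = κ s) ∧
      ∀ κ'' : ℕ → Lv, (∀ s, GLv S s (κ'' s)) → (∀ s < N', κ'' s = κ' s) →
        ∃ x : List Bool, ¬ (x ∈ LF (dat S κ'') ↔ 2 ^ p.eval x.length < 2 * cnt (p.eval x.length)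
          fun w => M.out (RT.orc S N (bt α) g h (dat S κ'')) (pairBits w x) = some [true]) := by
  obtain ⟨n, T, J, h1, h2, h3, h4, hp, h5, h6, h7, h8⟩ := sizes hα hα' M p N₀
  obtain ⟨D', hD', hb, hf, hne⟩ := one_step (b := bt α) hc M h2 h3 h4 hp h5 h6 h7 h8 (dat S κ)
    (good_dat hκ)
  set κ' : ℕ → Lv := fun s => if s < N₀ then κ s else (D'.bl, D'.fr s) with hκ'
  have hdat : dat S κ' = D' := by
    have e1 : (dat S κ').bl = D'.bl := by
      funext c
      show (κ' (lev S c)).1 c = _
      rw [hκ']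
      simp only
      split_ifs with hlt
      · rw [hb c (by omega)]
        rfl
      · rfl
    have e2 : (dat S κ').fr = D'.fr := by
      funext s
      show (κ' s).2 = _
      rw [hκ']
      simp only
      split_ifs with hlt
      · rw [hf s (by omega)]
        rfl
      · rfl
    cases D'
    simp only at e1 e2
    rw [← e1, ← e2]
  refine ⟨κ', T + 1, fun s => ?_, fun s hs => by rw [hκ']; exact if_pos hs,
    fun κ'' _ hag => ⟨List.replicate n false, ?_⟩⟩
  · rw [hκ']
    simp only
    split_ifs with hlt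
    · exact hκ s
    · intro c hcs
      have := hD' c
      rw [hcs] at this
      exact this
  · have hloc : ∀ q : List Bool, q.length ≤ T + 1 → RT.orc S N (bt α) g h (dat S κ'') q =
        RT.orc S N (bt α) g h D' q := by
      intro q hq
      refine orc_loc hc.big (n := T + 1) (fun c hc' => ?_) (fun s hs => ?_) _ q rfl hq
      · show (κ'' (lev S c)).1 c = _
        rw [hag _ hc', ← hdat]
        rfl
      · show (κ'' s).2 = _
        rw [hag _ hs, ← hdat]
        rfl
    have hout : ∀ z : List Bool, z.length = 2 * p.eval n + 1 + n →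
        M.out (RT.orc S N (bt α) g h (dat S κ'')) z = M.out (RT.orc S N (bt α) g h D') z := by
      intro z hz
      rw [← h7 _ _ hz, ← h7 (RT.orc S N (bt α) g h D') _ hz, cut_congr fun z hz => hloc z (by omega)]
    have hfr : (dat S κ'').fr n = D'.fr n := by
      show (κ'' n).2 = _
      rw [hag _ (by omega), ← hdat]
      rfl
    have hmem : List.replicate n false ∈ LF (dat S κ'') ↔ OF n (D'.fr n) := by
      show OF (List.replicate n false).length _ ↔ _
      rw [List.length_replicate, hfr]
    have hcnt : (cnt (p.eval n) fun w => M.out (RT.orc S N (bt α) g h (dat S κ''))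
        (pairBits w (List.replicate n false)) = some [true]) = cnt (p.eval n) fun w =>
        M.out (RT.orc S N (bt α) g h D') (pairBits w (List.replicate n false)) = some [true] := by
      refine cnt_congr fun w hw => ?_
      rw [hout _ (by rw [length_pairBits, hw, List.length_replicate])]
    rw [List.length_replicate, hmem, hcnt]
    exact hne

/-- good data exist -/
theorem exists_good (S : ℕ → Polynomial ℕ) : ∃ κ : ℕ → Lv, ∀ s, GLv S s (κ s) := by
  classical
  have hy : ∀ s, OB s (en (ll s + 1) fun i => decide (i = fun _ => false)) := fun s => by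
    rw [ob_en]
    have h1 : (univ.filter fun i : Fin (ll s + 1) → Bool =>
        decide (i = fun _ => false) = true) = {fun _ => false} := by
      ext i
      simp
    rw [h1, card_singleton]
    exact odd_one
  have hn : ∀ s, ¬ OB s (en (ll s + 1) fun _ => false) := fun s => by
    rw [ob_en]
    simp
  refine ⟨fun s => (fun _ t => if t then en (ll s + 1) fun i => decide (i = fun _ => false)
    else en (ll s + 1) fun _ => false, fun _ => false), fun s c _ => ⟨hy s, hn s⟩⟩

/-- **Polynomial space in `⊕P`.** -/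
theorem parP_of_pspace (hg : Function.Surjective g) (hc : Kq g h S N) {D : RT.Dat} (hD : Good S D)
    {L : Set (List Bool)} (hL : IsPSPACE (RT.orc S N b g h D) L) :
    IsParP (RT.orc S N b g h D) L := by
  obtain ⟨e, he⟩ := code_true hg hc _ hL
  set p : Polynomial ℕ := (Polynomial.C 8 * S e + Polynomial.C 40) + 1 with hp
  have hpe : ∀ n, p.eval n = ll ((S e).eval n) + 1 := fun n => by
    rw [hp, Polynomial.eval_add, ll_eval, Polynomial.eval_one]
  have hx : Poly (fun y => (unpair y).2) := Poly.snd poly_unpair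
  have hw : Poly (fun y => (unpair y).1) := Poly.fst poly_unpair
  have h1 : Poly (fun z => true :: false :: false :: cS e ((S e).eval (unpair z).2.length)
      ((unpair z).2 ++ (unpair z).1)) :=
    Poly.cons (NPC.Poly.const _) (Poly.cons (NPC.Poly.const _) (Poly.cons (NPC.Poly.const _)
      (poly_cS e ((UPoly.length hx).eval (S e)) (Poly.append hx hw))))
  refine ⟨_, p, TH678.WP.isFP_ask' _ h1, fun x => ?_⟩
  simp only [unpair_pairBits, List.cons.injEq, and_true]
  have h2 : (cnt (p.eval x.length) fun w => RT.orc S N b g h D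
      (true :: false :: false :: cS e ((S e).eval x.length) (x ++ w)) = true) =
      cnt (ll (lev S (e, x)) + 1) fun w => D.bl (e, x)
        (@decide (Ac g S e x (RT.orc S N b g h D)) (Classical.propDecidable _)) w = true := by
    rw [hpe]
    refine cnt_congr fun w hw => ?_
    exact orc_on (g := g) (h := h) hc.big D (Ix.blk e x w hw : Ix S N b)
  rw [h2]
  have hb := hD (e, x)
  constructor
  · intro hx
    have h2 : @decide (Ac g S e x (RT.orc S N b g h D)) (Classical.propDecidable _) = true :=
      (@decide_eq_true_iff _ (Classical.propDecidable _)).2 ((he x).2 hx)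
    rw [h2]
    exact hb.1
  · intro hodd
    by_contra hx
    have h2 : @decide (Ac g S e x (RT.orc S N b g h D)) (Classical.propDecidable _) = false :=
      (@decide_eq_false_iff_not _ (Classical.propDecidable _)).2 fun h3 => hx ((he x).1 h3)
    rw [h2] at hodd
    exact hb.2 hodd

/-- **The language is in polynomial space.** -/
theorem pspace_LF (D : RT.Dat) : IsPSPACE (RT.orc S N b g h D) (LF D) := by
  set f : List Bool → List Bool := fun x => false :: true :: (List.replicate x.length true ++
    false :: (x ++ List.replicate (3 * x.length + 19) false)) with hf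
  have hlen : UPoly (fun u : List Bool => u.length) := UPoly.length Poly.id
  have hfp : Poly f := by
    refine Poly.cons (NPC.Poly.const _) (Poly.cons (NPC.Poly.const _) (Poly.append (poly_rep hlen)
      (Poly.cons (NPC.Poly.const _) (Poly.append Poly.id ?_))))
    exact (NPC.Poly.map (hlen.eval (Polynomial.C 3 * Polynomial.X + Polynomial.C 19))
      (F := fun _ _ => false) (NPC.Poly.const false)).congr fun a => by simp
  have hfl : ∀ x : List Bool, (f x).length = 5 * x.length + 22 := by
    intro x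
    simp only [hf, List.length_cons, List.length_append, List.length_replicate]
    omega
  have h1 := (parLang_pspace (RT.orc S N b g h D)).precomp hfp
  have h2 : LF D = {y | f y ∈ parLang (RT.orc S N b g h D)} := by
    ext x
    show OF x.length (D.fr x.length) ↔ Odd ((Finset.range (2 ^ (f x).length)).filter
      (fun j => RT.orc S N b g h D (f x ++ bitsOf (f x).length j) = true)).card
    have h3 : (f x).length = 5 * x.length + 22 := hfl x
    rw [h3]
    have h4 : ((Finset.range (2 ^ (5 * x.length + 22))).filter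
        (fun j => RT.orc S N b g h D (f x ++ bitsOf (5 * x.length + 22) j) = true)).card =
        cnt (5 * x.length + 22) fun w => RT.orc S N b g h D (f x ++ w) = true := by
      rw [cnt_bits]
      refine congrArg Finset.card (Finset.ext fun i => ?_)
      simp only [Finset.mem_filter]
    rw [h4]
    have h5 : (cnt (5 * x.length + 22) fun w => RT.orc S N b g h D (f x ++ w) = true) =
        cnt (5 * x.length + 22) fun w =>
          D.fr x.length (List.replicate (3 * x.length + 19) false ++ w) = true := by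
      refine cnt_congr fun w _ => ?_
      have h6 : f x ++ w = false :: true :: (List.replicate x.length true ++
          false :: (x ++ (List.replicate (3 * x.length + 19) false ++ w))) := by
        simp [hf]
      rw [h6, orc_off D (fun p hp => by cases p <;> simp [cI] at hp)]
      show frd D.fr _ = true ↔ _
      rw [frd_rep _ _ _ _ rfl]
    rw [h5]
    rfl
  rw [h2]
  exact h1

/-- **The world.** -/
theorem world (α : ℕ → ℕ) (hα : Monotone α) (hα' : Tendsto α atTop atTop) :
    ∃ A : Oracle, (∀ L, IsPH A L → IsP A L) ∧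
      (∀ L, IsPSPACE A L → IsParP A L ∧ IsTime α A L) ∧
      (∃ L, IsPP A L ∧ ¬ IsPH A L) ∧ ∃ L, IsPSPACE A L ∧ ¬ IsPP A L := by
  obtain ⟨g, hg⟩ := CC.exists_enum
  have hne : Nonempty (Alg × Polynomial ℕ) := ⟨⟨⟨fun _ => [], CC.const_polyTime _, 0⟩, 0⟩⟩
  have hct : Countable (Polynomial ℕ) := CC.poly_countable
  obtain ⟨h, hh⟩ := exists_surjective_nat (Alg × Polynomial ℕ)
  obtain ⟨S, N, hc⟩ := exists_kq g h
  obtain ⟨κ, hκ, hP⟩ := finite_ext (β := Lv) (GLv S)
    (fun j κ => ∃ x : List Bool, ¬ (x ∈ LF (dat S κ) ↔ 2 ^ (h j).2.eval x.length <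
      2 * cnt ((h j).2.eval x.length) fun w =>
        (h j).1.out (RT.orc S N (bt α) g h (dat S κ)) (pairBits w x) = some [true]))
    (exists_good S) (fun j N₀ κ hκ => stage hα hα' hc (h j).1 (h j).2 N₀ κ hκ)
  set A := RT.orc S N (bt α) g h (dat S κ) with hA
  have hNP : ∀ L, IsNP A L → IsP A L := fun L hL => p_of_np hh hc _ hL
  have hPH : ∀ L, IsPH A L → IsP A L := fun L hL => isP_of_isPH hNP hL
  have hPS : ∀ L, IsPSPACE A L → IsParP A L := fun L hL => parP_of_pspace hg hc (good_dat hκ) hL
  have hLF : ¬ IsPP A (LF (dat S κ)) := by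
    rintro ⟨V, p, ⟨M, hM⟩, hx⟩
    obtain ⟨j, hj⟩ := hh (M, p)
    obtain ⟨x, hx'⟩ := hP j
    apply hx'
    rw [hj, hx x]
    have h1 : (cnt (p.eval x.length) fun w => M.out (RT.orc S N (bt α) g h (dat S κ))
        (pairBits w x) = some [true]) = cnt (p.eval x.length) fun w =>
        V (pairBits w x) = [true] := by
      refine cnt_congr fun w _ => ?_
      rw [← hA, hM]
      simp
    simp only
    rw [h1]
  refine ⟨A, hPH, fun L hL => ⟨hPS L hL, time_of_pspace hα hg hc _ hL⟩, ?_,
    LF (dat S κ), pspace_LF _, hLF⟩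
  by_contra hcon
  push Not at hcon
  have hPP : ∀ L, IsPP A L → IsP A L := fun L hL => hPH L (hcon L hL)
  exact hLF (IsP.isPP (parP_of hNP hPP (hPS _ (pspace_LF _))))

end Pool.Agent.H9x.RP
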